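import Mathlib

/-!
# Level quotients of the Grigorchuk group: an explicit lower bound for the diameters

`Gen` are the four letters `a, b, c, d`, `act` their action on finite binary words
(`false` is the letter `0`, `true` the letter `1`).
-/

set_option autoImplicit false

namespace Pool.Agent.Results.MP_b99418_al.ExactLength

/-- The four generators of the Grigorchuk group. -/
inductive Gen : Type
  | a | b | c | d
  deriving DecidableEq

/-- Action of the generators on binary words (`false` = `0`, `true` = `1`):
`a(xw) = (1-x)w`, `b(0w) = 0 a(w)`, `b(1w) = 1 c(w)`, `c(0w) = 0 a(w)`, `c(1w) = 1 d(w)`,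
`d(0w) = 0w`, `d(1w) = 1 b(w)`. -/
def act : Gen → List Bool → List Bool
  | _, [] => []
  | .a, x :: w => (!x) :: w
  | .b, false :: w => false :: act .a w
  | .b, true :: w => true :: act .c w
  | .c, false :: w => false :: act .a w
  | .c, true :: w => true :: act .d w
  | .d, false :: w => false :: w
  | .d, true :: w => true :: act .b w

theorem act_nil (x : Gen) : act x [] = [] := by cases x <;> rfl

theorem length_act (w : List Bool) : ∀ x : Gen, (act x w).length = w.length := by
  induction w with
  | nil => intro x; cases x <;> rfl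
  | cons s w ih => intro x; cases x <;> cases s <;> simp [act, ih]

theorem act_act (w : List Bool) : ∀ x : Gen, act x (act x w) = w := by
  induction w with
  | nil => intro x; cases x <;> rfl
  | cons s w ih => intro x; cases x <;> cases s <;> simp [act, ih]

/-- The words of length `n`: level `n` of the tree. -/
abbrev Level (n : ℕ) : Type := {w : List Bool // w.length = n}

/-- The image of a generator in `G_n`, as a permutation of level `n`. -/
def gen (n : ℕ) (x : Gen) : Equiv.Perm (Level n) where
  toFun w := ⟨act x w.1, by rw [length_act]; exact w.2⟩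
  invFun w := ⟨act x w.1, by rw [length_act]; exact w.2⟩
  left_inv w := Subtype.ext (act_act w.1 x)
  right_inv w := Subtype.ext (act_act w.1 x)

/-- The group `G_n = G / st_G(n)`, as a group of permutations of level `n`. -/
def G (n : ℕ) : Subgroup (Equiv.Perm (Level n)) := Subgroup.closure (Set.range (gen n))

/-- The length of `g` with respect to `{a, b, c, d}`. -/
noncomputable def len (n : ℕ) (g : Equiv.Perm (Level n)) : ℕ :=
  sInf {k | ∃ l : List Gen, l.length = k ∧ (l.map (gen n)).prod = g}

/-- The diameter `D_n` of the Cayley graph of `G_n` with respect to `{a, b, c, d}`. -/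
noncomputable def D (n : ℕ) : ℕ := sSup {k | ∃ g ∈ G n, len n g = k}

/-- Change the last letter of a word. -/
def flipLast : List Bool → List Bool
  | [] => []
  | [x] => [!x]
  | x :: y :: w => x :: flipLast (y :: w)

theorem length_flipLast : ∀ w : List Bool, (flipLast w).length = w.length
  | [] => rfl
  | [_] => rfl
  | x :: y :: w => by
      have := length_flipLast (y :: w)
      simp [flipLast, this]

theorem flipLast_flipLast : ∀ w : List Bool, flipLast (flipLast w) = w
  | [] => rfl
  | [x] => by simp [flipLast]
  | [x, y] => by simp [flipLast]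
  | x :: y :: z :: w => by
      have h := flipLast_flipLast (y :: z :: w)
      have h2 : flipLast (y :: z :: w) = y :: flipLast (z :: w) := rfl
      rw [h2] at h
      have h3 : flipLast (x :: y :: z :: w) = x :: y :: flipLast (z :: w) := rfl
      rw [h3]
      have h4 : flipLast (x :: y :: flipLast (z :: w)) = x :: flipLast (y :: flipLast (z :: w)) := rfl
      rw [h4, h]

/-- The automorphism `z_n` of level `n` whose portrait has label `1` exactly at the vertices of
level `n - 1`: it changes the last letter of every word. -/
def z (n : ℕ) : Equiv.Perm (Level n) where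
  toFun w := ⟨flipLast w.1, by rw [length_flipLast]; exact w.2⟩
  invFun w := ⟨flipLast w.1, by rw [length_flipLast]; exact w.2⟩
  left_inv w := Subtype.ext (flipLast_flipLast w.1)
  right_inv w := Subtype.ext (flipLast_flipLast w.1)

/-- `L 0 = 0, L 1 = 2, L 2 = 4, L (n+3) = L (n+2) + 2 L (n+1) + 4 L n`, so that
`L 3 = 8, L 4 = 24, L 5 = 56, L 6 = 136, L 7 = 344, ...`. -/
def L : ℕ → ℕ
  | 0 => 0
  | 1 => 2
  | 2 => 4
  | n + 3 => L (n + 2) + 2 * L (n + 1) + 4 * L n

/-! ### Words -/

/-- Evaluation of a word in the generators. -/
def ev (u : List Gen) (w : List Bool) : List Bool := u.foldr act w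

@[simp] theorem ev_nil (w : List Bool) : ev [] w = w := rfl
@[simp] theorem ev_cons (x : Gen) (u : List Gen) (w : List Bool) :
    ev (x :: u) w = act x (ev u w) := rfl
theorem ev_append (u v : List Gen) (w : List Bool) : ev (u ++ v) w = ev u (ev v w) := by
  simp [ev, List.foldr_append]

theorem length_ev (u : List Gen) (w : List Bool) : (ev u w).length = w.length := by
  induction u with
  | nil => rfl
  | cons x u ih => rw [ev_cons, length_act, ih]

theorem ev_empty (u : List Gen) : ev u [] = [] := by
  induction u with
  | nil => rfl
  | cons x u ih => rw [ev_cons, ih, act_nil]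

theorem prod_apply (n : ℕ) (l : List Gen) (w : Level n) :
    ((l.map (gen n)).prod w).1 = ev l w.1 := by
  induction l with
  | nil => rfl
  | cons x l ih =>
    simp only [List.map_cons, List.prod_cons, Equiv.Perm.mul_apply, ev_cons]
    rw [← ih]
    rfl

/-- `u` represents `z_n`. -/
def Rep (n : ℕ) (u : List Gen) : Prop := ∀ w : List Bool, w.length = n → ev u w = flipLast w

theorem rep_iff (n : ℕ) (l : List Gen) : (l.map (gen n)).prod = z n ↔ Rep n l := by
  constructor
  · intro h w hw
    have := prod_apply n l ⟨w, hw⟩
    rw [h] at this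
    exact this.symm
  · intro h
    refine Equiv.ext fun w => Subtype.ext ?_
    rw [prod_apply, h w.1 w.2]
    rfl

theorem rep_cons {n : ℕ} (hn : 2 ≤ n) {u : List Gen} (h : Rep n u) (s : Bool) (w : List Bool)
    (hw : w.length + 1 = n) : ev u (s :: w) = s :: flipLast w := by
  rw [h (s :: w) (by simpa using hw)]
  cases w with
  | nil => simp at hw; omega
  | cons y w => rfl

theorem flipLast_cons (s : Bool) (v : List Bool) (hv : v ≠ []) :
    flipLast (s :: v) = s :: flipLast v := by
  cases v with
  | nil => exact absurd rfl hv
  | cons y w => rfl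

/-- Cyclic shift: `z_n` is centralised by the generators. -/
theorem act_flipLast (w : List Bool) : 2 ≤ w.length →
    ∀ x : Gen, act x (flipLast w) = flipLast (act x w) := by
  induction w with
  | nil => intro hw; simp at hw
  | cons s v ih =>
    intro hw
    have hv : v ≠ [] := by rintro rfl; simp at hw
    have hne : ∀ y, act y v ≠ [] := by
      intro y h0
      have := length_act v y
      rw [h0] at this
      exact hv (List.length_eq_zero_iff.1 this.symm)
    rcases Nat.lt_or_ge v.length 2 with h | h
    · have hl : v.length = 1 := by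
        have := List.length_pos_iff.2 hv
        omega
      obtain ⟨y, rfl⟩ := List.length_eq_one_iff.1 hl
      intro x
      cases x <;> cases s <;> cases y <;> rfl
    · have ih' := ih h
      intro x
      rw [flipLast_cons s v hv]
      cases x <;> cases s <;> simp only [act] <;>
        first
          | rw [flipLast_cons _ _ hv]
          | rw [ih', flipLast_cons _ _ (hne _)]

theorem ev_flipLast (u : List Gen) (w : List Bool) (hw : 2 ≤ w.length) :
    ev u (flipLast w) = flipLast (ev u w) := by
  induction u with
  | nil => rfl
  | cons x u ih => rw [ev_cons, ev_cons, ih, act_flipLast _ (by rw [length_ev]; exact hw)]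

theorem rep_rotate {n : ℕ} (hn : 2 ≤ n) (x : Gen) (u : List Gen) :
    Rep n (x :: u) ↔ Rep n (u ++ [x]) := by
  constructor
  · intro h w hw
    have h1 := h (act x w) (by rw [length_act]; exact hw)
    rw [ev_cons] at h1
    have h2 := congrArg (act x) h1
    rw [act_act, act_flipLast _ (by rw [length_act]; omega), act_act] at h2
    rw [ev_append]
    exact h2
  · intro h w hw
    have h1 := h (act x w) (by rw [length_act]; exact hw)
    rw [ev_append] at h1
    simp only [ev_cons, ev_nil, act_act] at h1
    rw [ev_cons, h1, act_flipLast _ (by rw [length_act]; omega), act_act]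

/-! ### The product of two letters of `{b, c, d}` -/

/-- The letters `b, c, d`. -/
inductive X : Type
  | b | c | d
  deriving DecidableEq

/-- Inclusion of `{b, c, d}` in the letters. -/
def X.g : X → Gen
  | .b => .b
  | .c => .c
  | .d => .d

/-- The third letter. -/
def third : X → X → X
  | .b, .c => .d
  | .c, .b => .d
  | .b, .d => .c
  | .d, .b => .c
  | .c, .d => .b
  | .d, .c => .b
  | x, _ => x

theorem act_third (w : List Bool) : ∀ x y : X, x ≠ y →
    act x.g (act y.g w) = act (third x y).g w := by
  induction w with
  | nil => intro x y _; simp [act_nil]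
  | cons s w ih =>
    intro x y hxy
    have hbc := ih .b .c (by simp)
    have hcb := ih .c .b (by simp)
    have hbd := ih .b .d (by simp)
    have hdb := ih .d .b (by simp)
    have hcd := ih .c .d (by simp)
    have hdc := ih .d .c (by simp)
    simp only [X.g, third] at hbc hcb hbd hdb hcd hdc
    cases x <;> cases y <;> cases s <;>
      simp_all [X.g, third, act, act_act]

/-! ### Weights -/

/-- Weights of the letters `a, b, c, d`. -/
structure Wt where
  a : ℤ
  b : ℤ
  c : ℤ
  d : ℤ

/-- The admissible weights. -/
structure Wt.Ok (W : Wt) : Prop where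
  a0 : 0 ≤ W.a
  b0 : 0 ≤ W.b
  c0 : 0 ≤ W.c
  d0 : 0 ≤ W.d
  cb : W.c ≤ W.b
  bcd : W.b ≤ W.c + W.d
  dbc : W.d ≤ W.b + W.c

/-- Weight of a letter. -/
def Wt.of (W : Wt) : Gen → ℤ
  | .a => W.a
  | .b => W.b
  | .c => W.c
  | .d => W.d

/-- Weight of a word. -/
def Wt.word (W : Wt) (u : List Gen) : ℤ := (u.map W.of).sum

@[simp] theorem Wt.word_nil (W : Wt) : W.word [] = 0 := rfl
@[simp] theorem Wt.word_cons (W : Wt) (x : Gen) (u : List Gen) :
    W.word (x :: u) = W.of x + W.word u := by simp [Wt.word]
@[simp] theorem Wt.word_append (W : Wt) (u v : List Gen) :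
    W.word (u ++ v) = W.word u + W.word v := by simp [Wt.word]

theorem Wt.Ok.of_nonneg {W : Wt} (h : W.Ok) (x : Gen) : 0 ≤ W.of x := by
  cases x
  · exact h.a0
  · exact h.b0
  · exact h.c0
  · exact h.d0

theorem Wt.Ok.third {W : Wt} (h : W.Ok) (x y : X) (hxy : x ≠ y) :
    W.of (third x y).g ≤ W.of x.g + W.of y.g := by
  have h1 := h.a0; have h2 := h.b0; have h3 := h.c0; have h4 := h.d0
  have h5 := h.cb; have h6 := h.bcd; have h7 := h.dbc
  cases x <;> cases y <;> simp_all [ExactLength.third, X.g, Wt.of] <;> linarith

/-- The next weights (scaled by 2). -/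
def Wt.next (W : Wt) : Wt where
  a := W.a + W.b + W.c - W.d
  b := 2 * (W.a + W.d)
  c := W.a + W.b - W.c + W.d
  d := W.a - W.b + W.c + W.d

theorem Wt.Ok.next {W : Wt} (h : W.Ok) : W.next.Ok := by
  have h1 := h.a0; have h2 := h.b0; have h3 := h.c0; have h4 := h.d0
  have h5 := h.cb; have h6 := h.bcd; have h7 := h.dbc
  constructor <;> simp only [Wt.next] <;> linarith

/-! ### Alternating words -/

/-- The word `a x_1 a x_2 ... a x_k`. -/
def P : List X → List Gen
  | [] => []
  | x :: p => Gen.a :: x.g :: P p

theorem P_append (p q : List X) : P (p ++ q) = P p ++ P q := by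
  induction p with
  | nil => rfl
  | cons x p ih => simp [P, ih]

/-- The normal form. -/
def nf (o : Option X) (p : List X) (e : Bool) : List Gen :=
  (o.map X.g).toList ++ P p ++ (if e then [Gen.a] else [])

theorem nf_none (p : List X) (e : Bool) : nf none p e = P p ++ (if e then [Gen.a] else []) := rfl

theorem nf_some (x : X) (p : List X) (e : Bool) :
    nf (some x) p e = x.g :: (P p ++ (if e then [Gen.a] else [])) := rfl

theorem nf_stepX {W : Wt} (h : W.Ok) (o : Option X) (p : List X) (e : Bool) (Y : X) :
    ∃ o' : Option X, (∀ w, act Y.g (ev (nf o p e) w) = ev (nf o' p e) w) ∧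
      W.word (nf o' p e) ≤ W.of Y.g + W.word (nf o p e) := by
  cases o with
  | none =>
    refine ⟨some Y, fun w => ?_, ?_⟩
    · rw [nf_some, nf_none, ev_cons]
    · rw [nf_some, nf_none, Wt.word_cons]
  | some x =>
    by_cases hx : Y = x
    · subst hx
      refine ⟨none, fun w => ?_, ?_⟩
      · rw [nf_some, nf_none, ev_cons, act_act]
      · rw [nf_some, nf_none, Wt.word_cons]
        have := h.of_nonneg Y.g
        linarith
    · refine ⟨some (third Y x), fun w => ?_, ?_⟩
      · rw [nf_some, nf_some, ev_cons, ev_cons, act_third _ _ _ hx]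
      · rw [nf_some, nf_some, Wt.word_cons, Wt.word_cons]
        have := h.third Y x hx
        linarith

theorem nf_stepA {W : Wt} (h : W.Ok) (o : Option X) (p : List X) (e : Bool) :
    ∃ (o' : Option X) (p' : List X) (e' : Bool),
      (∀ w, act .a (ev (nf o p e) w) = ev (nf o' p' e') w) ∧
      W.word (nf o' p' e') ≤ W.of .a + W.word (nf o p e) := by
  have ha := h.of_nonneg .a
  cases o with
  | none =>
    cases p with
    | nil =>
      cases e with
      | false =>
        refine ⟨none, [], true, fun w => rfl, ?_⟩
        have e1 : W.word (nf none [] true) = W.of .a + W.word (nf none [] false) := by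
          show W.word [Gen.a] = W.of .a + W.word []
          rw [Wt.word_cons]
        rw [e1]
      | true =>
        refine ⟨none, [], false, fun w => ?_, ?_⟩
        · show act .a (act .a w) = w
          rw [act_act]
        · show W.word [] ≤ W.of .a + W.word [Gen.a]
          rw [Wt.word_cons, Wt.word_nil]
          linarith
    | cons x q =>
      refine ⟨some x, q, e, fun w => ?_, ?_⟩
      · rw [nf_none, nf_some]
        show act .a (act .a (ev (x.g :: (P q ++ (if e then [Gen.a] else []))) w)) = _
        rw [act_act]
      · rw [nf_none, nf_some]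
        show _ ≤ W.of .a + W.word (Gen.a :: x.g :: (P q ++ (if e then [Gen.a] else [])))
        rw [Wt.word_cons W Gen.a]
        linarith
  | some x =>
    refine ⟨none, x :: p, e, fun w => ?_, ?_⟩
    · rfl
    · rw [nf_none, nf_some]
      show W.word (Gen.a :: x.g :: (P p ++ (if e then [Gen.a] else []))) ≤ _
      rw [Wt.word_cons W Gen.a]

theorem nf_reduce {W : Wt} (h : W.Ok) (u : List Gen) :
    ∃ (o : Option X) (p : List X) (e : Bool),
      (∀ w, ev u w = ev (nf o p e) w) ∧ W.word (nf o p e) ≤ W.word u := by
  induction u with
  | nil => exact ⟨none, [], false, fun w => rfl, le_rfl⟩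
  | cons y u ih =>
    obtain ⟨o, p, e, h1, h2⟩ := ih
    have key : ∃ (o' : Option X) (p' : List X) (e' : Bool),
        (∀ w, act y (ev (nf o p e) w) = ev (nf o' p' e') w) ∧
        W.word (nf o' p' e') ≤ W.of y + W.word (nf o p e) := by
      cases y with
      | a => exact nf_stepA h o p e
      | b =>
        obtain ⟨o', h3, h4⟩ := nf_stepX h o p e .b
        exact ⟨o', p, e, h3, h4⟩
      | c =>
        obtain ⟨o', h3, h4⟩ := nf_stepX h o p e .c
        exact ⟨o', p, e, h3, h4⟩
      | d =>
        obtain ⟨o', h3, h4⟩ := nf_stepX h o p e .d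
        exact ⟨o', p, e, h3, h4⟩
    obtain ⟨o', p', e', h3, h4⟩ := key
    refine ⟨o', p', e', fun w => ?_, ?_⟩
    · rw [ev_cons, h1, h3]
    · rw [Wt.word_cons]
      linarith

/-- Every word equals an alternating one of at most the same weight. -/
theorem reduce {W : Wt} (h : W.Ok) (u : List Gen) :
    ∃ (o : Option X) (p : List X) (e : Bool),
      (∀ w, ev u w = ev ((o.map X.g).toList ++ P p ++ (if e then [Gen.a] else [])) w) ∧
      W.word ((o.map X.g).toList ++ P p ++ (if e then [Gen.a] else [])) ≤ W.word u := by
  obtain ⟨o, p, e, h1, h2⟩ := nf_reduce h u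
  exact ⟨o, p, e, h1, h2⟩

theorem flipLast_ne (w : List Bool) (hw : w ≠ []) : flipLast w ≠ w := by
  induction w with
  | nil => exact absurd rfl hw
  | cons s v ih =>
    cases v with
    | nil =>
      intro h
      have h1 : [!s] = [s] := h
      cases s <;> simp at h1
    | cons y v =>
      intro h
      have h1 : s :: flipLast (y :: v) = s :: y :: v := h
      exact ih (by simp) (List.cons.inj h1).2

theorem act_ones (n : ℕ) : ∀ x : X, act x.g (List.replicate n true) = List.replicate n true := by
  induction n with
  | zero => intro x; exact act_nil _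
  | succ n ih =>
    intro x
    rw [List.replicate_succ]
    cases x
    · show true :: act .c (List.replicate n true) = _
      have := ih .c
      rw [show X.g X.c = Gen.c from rfl] at this
      rw [this]
    · show true :: act .d (List.replicate n true) = _
      have := ih .d
      rw [show X.g X.d = Gen.d from rfl] at this
      rw [this]
    · show true :: act .b (List.replicate n true) = _
      have := ih .b
      rw [show X.g X.b = Gen.b from rfl] at this
      rw [this]

theorem not_rep_a {n : ℕ} (hn : 2 ≤ n) : ¬ Rep n [Gen.a] := by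
  intro h
  obtain ⟨m, rfl⟩ : ∃ m, n = m + 2 := ⟨n - 2, by omega⟩
  have h1 := h (false :: false :: List.replicate m false) (by simp)
  rw [flipLast_cons _ _ (by simp)] at h1
  have h2 : (true :: false :: List.replicate m false) =
    false :: flipLast (false :: List.replicate m false) := h1
  exact absurd (List.cons.inj h2).1 (by simp)

theorem not_rep_g {n : ℕ} (hn : 2 ≤ n) (x : X) : ¬ Rep n [x.g] := by
  intro h
  have h1 := h (List.replicate n true) (by simp)
  rw [ev_cons, ev_nil, act_ones] at h1
  refine flipLast_ne (List.replicate n true) ?_ h1.symm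
  intro h0
  have := congrArg List.length h0
  simp at this
  omega

theorem reduce_AB {W : Wt} (h : W.Ok) {n : ℕ} (hn : 2 ≤ n) (m : ℕ) :
    ∀ p : List X, p.length ≤ m →
      (Rep n (P p ++ [Gen.a]) → ∃ p2 : List X, Rep n (P p2) ∧
        W.word (P p2) ≤ W.word (P p ++ [Gen.a])) ∧
      (∀ x : X, Rep n (x.g :: P p) → ∃ p2 : List X, Rep n (P p2) ∧
        W.word (P p2) ≤ W.word (x.g :: P p)) := by
  have hA0 : Rep n (P [] ++ [Gen.a]) → False := fun hr => not_rep_a hn hr
  have hB0 : ∀ x : X, Rep n (x.g :: P []) → False := fun x hr => not_rep_g hn x hr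
  have ha := h.of_nonneg .a
  induction m with
  | zero =>
    intro p hp
    have hp0 : p = [] := List.length_eq_zero_iff.1 (by omega)
    subst hp0
    exact ⟨fun hr => absurd hr hA0, fun x hr => absurd hr (hB0 x)⟩
  | succ m ih =>
    intro p hp
    constructor
    · intro hr
      cases p with
      | nil => exact absurd hr hA0
      | cons y q =>
        have hr2 := (rep_rotate hn Gen.a (P (y :: q))).2 hr
        have hr3 : Rep n (y.g :: P q) := by
          intro w hw
          have h1 := hr2 w hw
          have h2 : ev (Gen.a :: P (y :: q)) w = act .a (act .a (ev (y.g :: P q) w)) := rfl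
          rw [h2, act_act] at h1
          exact h1
        obtain ⟨p2, h4, h5⟩ := (ih q (by simp at hp; omega)).2 y hr3
        refine ⟨p2, h4, h5.trans ?_⟩
        rw [Wt.word_append]
        show _ ≤ W.word (Gen.a :: y.g :: P q) + _
        rw [Wt.word_cons W Gen.a, Wt.word_cons W Gen.a, Wt.word_nil]
        linarith
    · intro x hr
      have hr2 := (rep_rotate hn x.g (P p)).1 hr
      rcases List.eq_nil_or_concat p with rfl | ⟨q, y, rfl⟩
      · exact absurd hr (hB0 x)
      · rw [List.concat_eq_append] at hr2 hp ⊢
        have hP : P (q ++ [y]) = P q ++ [Gen.a, y.g] := by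
          rw [P_append]
          rfl
        rw [hP] at hr2 ⊢
        have hev : ∀ w, ev (P q ++ [Gen.a, y.g] ++ [x.g]) w =
            ev (P q) (act .a (act y.g (act x.g w))) := by
          intro w
          rw [ev_append, ev_append]
          rfl
        have hx := h.of_nonneg x.g
        have hy := h.of_nonneg y.g
        by_cases hyx : y = x
        · subst hyx
          have hr3 : Rep n (P q ++ [Gen.a]) := by
            intro w hw
            have h1 := hr2 w hw
            rw [hev, act_act] at h1
            rw [ev_append]
            exact h1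
          obtain ⟨p2, h4, h5⟩ := (ih q (by simp at hp; omega)).1 hr3
          refine ⟨p2, h4, h5.trans ?_⟩
          rw [Wt.word_cons, Wt.word_append, Wt.word_append, Wt.word_cons, Wt.word_cons,
            Wt.word_cons, Wt.word_nil]
          linarith
        · refine ⟨q ++ [third y x], ?_, ?_⟩
          · intro w hw
            have h1 := hr2 w hw
            rw [hev, act_third _ _ _ hyx] at h1
            have hP' : P (q ++ [third y x]) = P q ++ [Gen.a, (third y x).g] := by
              rw [P_append]
              rfl
            rw [hP', ev_append]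
            exact h1
          · have hP' : P (q ++ [third y x]) = P q ++ [Gen.a, (third y x).g] := by
              rw [P_append]
              rfl
            have ht := h.third y x hyx
            rw [hP', Wt.word_cons, Wt.word_append, Wt.word_append, Wt.word_cons, Wt.word_cons,
              Wt.word_cons, Wt.word_cons, Wt.word_nil]
            linarith

/-- A word that represents `z_n` may be replaced by `a x_1 ... a x_k`. -/
theorem reduceZ {W : Wt} (h : W.Ok) {n : ℕ} (hn : 2 ≤ n) (u : List Gen) (hu : Rep n u) :
    ∃ p : List X, Rep n (P p) ∧ W.word (P p) ≤ W.word u := by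
  obtain ⟨o, p, e, h1, h2⟩ := nf_reduce h u
  have hr : Rep n (nf o p e) := fun w hw => by rw [← h1 w]; exact hu w hw
  cases o with
  | none =>
    cases e with
    | false =>
      have e1 : nf none p false = P p := by
        rw [nf_none]
        simp
      rw [e1] at hr h2
      exact ⟨p, hr, h2⟩
    | true =>
      have e1 : nf none p true = P p ++ [Gen.a] := by
        rw [nf_none]
        simp
      rw [e1] at hr h2
      obtain ⟨p2, h3, h4⟩ := (reduce_AB h hn p.length p le_rfl).1 hr
      exact ⟨p2, h3, h4.trans h2⟩
  | some x =>
    cases e with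
    | false =>
      have e1 : nf (some x) p false = x.g :: P p := by
        rw [nf_some]
        simp
      rw [e1] at hr h2
      obtain ⟨p2, h3, h4⟩ := (reduce_AB h hn p.length p le_rfl).2 x hr
      exact ⟨p2, h3, h4.trans h2⟩
    | true =>
      have e1 : nf (some x) p true = (x.g :: P p) ++ [Gen.a] := by
        rw [nf_some]
        simp
      rw [e1] at hr h2
      refine ⟨x :: p, (rep_rotate hn Gen.a (x.g :: P p)).2 hr, ?_⟩
      refine le_trans (le_of_eq ?_) h2
      show W.word (Gen.a :: x.g :: P p) = _
      rw [Wt.word_append, Wt.word_cons W Gen.a, Wt.word_cons W Gen.a, Wt.word_nil]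
      ring

/-! ### Sections -/

/-- The section of `x ∈ {b, c, d}` at the first letter `s`, as a word. -/
def sec : X → Bool → List Gen
  | .b, false => [.a]
  | .b, true => [.c]
  | .c, false => [.a]
  | .c, true => [.d]
  | .d, false => []
  | .d, true => [.b]

theorem act_sec (x : X) (s : Bool) (w : List Bool) :
    act x.g (s :: w) = s :: ev (sec x s) w := by
  cases x <;> cases s <;> rfl

/-- The parity of the length. -/
def par : List X → Bool
  | [] => false
  | _ :: p => !par p

/-- The section of `a x_1 ... a x_k` at the first letter `s`. -/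
def S (s : Bool) : List X → List Gen
  | [] => []
  | x :: p => sec x (xor s (par p)) ++ S s p

theorem ev_P (s : Bool) (p : List X) (w : List Bool) :
    ev (P p) (s :: w) = xor s (par p) :: ev (S s p) w := by
  induction p with
  | nil => simp [P, S, par]
  | cons x p ih =>
    simp only [P, ev_cons, ih, S, ev_append, par]
    rw [act_sec]
    simp [act]

theorem word_S (W : Wt) (p : List X) :
    W.next.word (S false p) + W.next.word (S true p) = 2 * W.word (P p) := by
  induction p with
  | nil => rfl
  | cons x p ih =>
    simp only [S, P, Wt.word_append, Wt.word_cons]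
    cases x <;> cases par p <;> simp [sec, X.g, Wt.of, Wt.next] at ih ⊢ <;> linarith

theorem rep_S {n : ℕ} (hn : 1 ≤ n) {p : List X} (h : Rep (n + 1) (P p)) :
    par p = false ∧ ∀ s, Rep n (S s p) := by
  have key : ∀ (s : Bool) (w : List Bool), w.length = n →
      xor s (par p) :: ev (S s p) w = s :: flipLast w := by
    intro s w hw
    rw [← ev_P]
    exact rep_cons (by omega) h s w (by omega)
  have h0 : par p = false := by
    have := key false (List.replicate n false) (by simp)
    simpa using (List.cons.inj this).1
  refine ⟨h0, fun s w hw => ?_⟩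
  exact (List.cons.inj (key s w hw)).2

/-! ### The lower bound -/

/-- The bound of level `m + 2` for the weights `W`. -/
def bd : ℕ → Wt → ℤ
  | 0, W => 2 * (W.a + W.c)
  | m + 1, W => bd m W.next

theorem ev_no_a (u : List Gen) (hu : u.count Gen.a = 0) : ev u [false] = [false] := by
  induction u with
  | nil => rfl
  | cons x u ih =>
    have hx : x ≠ Gen.a := by
      rintro rfl
      simp at hu
    have hu' : u.count Gen.a = 0 := by
      rw [List.count_cons_of_ne hx] at hu
      exact hu
    rw [ev_cons, ih hu']
    cases x
    · exact absurd rfl hx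
    · rfl
    · rfl
    · rfl

theorem count_bound {W : Wt} (h : W.Ok) (p : List X) :
    (W.a + W.c) * (((S false p).count Gen.a + (S true p).count Gen.a : ℕ) : ℤ)
      ≤ W.word (P p) := by
  have h1 := h.a0; have h2 := h.b0; have h3 := h.c0; have h4 := h.d0
  have h5 := h.cb
  induction p with
  | nil => simp [S, P]
  | cons x p ih =>
    simp only [S, P, Wt.word_cons, List.count_append]
    push_cast at ih ⊢
    cases x <;> cases par p <;> simp [sec, X.g, Wt.of] at ih ⊢ <;> nlinarith

theorem base {W : Wt} (h : W.Ok) (p : List X) (hp : Rep 2 (P p)) :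
    2 * (W.a + W.c) ≤ W.word (P p) := by
  obtain ⟨_, hS⟩ := rep_S (n := 1) le_rfl hp
  have key : ∀ s, 1 ≤ (S s p).count Gen.a := by
    intro s
    by_contra hc
    have h0 : (S s p).count Gen.a = 0 := by omega
    have h1 := ev_no_a _ h0
    rw [hS s [false] rfl] at h1
    simp [flipLast] at h1
  have h1 := count_bound h p
  have h2 : (2 : ℤ) ≤ (((S false p).count Gen.a + (S true p).count Gen.a : ℕ) : ℤ) := by
    have := key false
    have := key true
    omega
  have h3 : 0 ≤ W.a + W.c := add_nonneg h.a0 h.c0
  nlinarith

theorem bound (m : ℕ) : ∀ (W : Wt), W.Ok → ∀ u : List Gen, Rep (m + 2) u → bd m W ≤ W.word u := by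
  induction m with
  | zero =>
    intro W h u hu
    obtain ⟨p, hp, hw⟩ := reduceZ h (by norm_num) u hu
    exact (base h p hp).trans hw
  | succ m ih =>
    intro W h u hu
    obtain ⟨p, hp, hw⟩ := reduceZ h (by omega) u hu
    obtain ⟨_, hS⟩ := rep_S (n := m + 2) (by omega) hp
    have h0 := ih W.next h.next _ (hS false)
    have h1 := ih W.next h.next _ (hS true)
    have h2 := word_S W p
    simp only [bd]
    linarith

/-- All weights 1. -/
def one : Wt := ⟨1, 1, 1, 1⟩

theorem one_ok : one.Ok := by constructor <;> simp [one]

theorem one_word (u : List Gen) : one.word u = u.length := by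
  induction u with
  | nil => rfl
  | cons x u ih => rw [Wt.word_cons, ih]; cases x <;> simp [Wt.of, one] <;> ring

theorem next_b (W : Wt) : W.next.b = W.next.c + W.next.d := by
  simp only [Wt.next]; ring

theorem bd_rec (m : ℕ) : ∀ W : Wt, W.b = W.c + W.d →
    bd (m + 3) W = bd (m + 2) W + 2 * bd (m + 1) W + 4 * bd m W := by
  induction m with
  | zero =>
    intro W hW
    simp only [bd, Wt.next, hW]
    ring
  | succ m ih =>
    intro W _
    have := ih W.next (next_b W)
    simpa only [bd] using this

theorem bd_next (m : ℕ) : bd m one.next = L (m + 3) := by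
  have h0 : bd 0 one.next = (L 3 : ℤ) := by simp [bd, one, Wt.next, L]
  have h1 : bd 1 one.next = (L 4 : ℤ) := by simp [bd, one, Wt.next, L]
  have h2 : bd 2 one.next = (L 5 : ℤ) := by simp [bd, one, Wt.next, L]
  have key : ∀ m : ℕ, bd m one.next = (L (m + 3) : ℤ) ∧
      bd (m + 1) one.next = (L (m + 4) : ℤ) ∧ bd (m + 2) one.next = (L (m + 5) : ℤ) := by
    intro m
    induction m with
    | zero => exact ⟨h0, h1, h2⟩
    | succ m ih =>
      refine ⟨ih.2.1, ih.2.2, ?_⟩
      have h3 := bd_rec m one.next (next_b one)
      rw [ih.1, ih.2.1, ih.2.2] at h3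
      have h4 : L (m + 6) = L (m + 5) + 2 * L (m + 4) + 4 * L (m + 3) := rfl
      show bd (m + 3) one.next = (L (m + 6) : ℤ)
      rw [h3, h4]
      push_cast
      ring
  exact (key m).1

theorem bd_one (m : ℕ) : bd m one = L (m + 2) := by
  cases m with
  | zero => simp [bd, one, L]
  | succ m => exact bd_next m

theorem length_ge {n : ℕ} (hn : 2 ≤ n) {u : List Gen} (hu : Rep n u) : L n ≤ u.length := by
  obtain ⟨m, rfl⟩ := Nat.exists_eq_add_of_le' hn
  have := bound m one one_ok u hu
  rw [bd_one, one_word] at this
  exact_mod_cast this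

/-! ### A word of length `L n` for `z_n` -/

/-- The substitution `b -> b d c`, `c -> b b`, `d -> c c`. -/
def tau : X → List X
  | .b => [.b, .d, .c]
  | .c => [.b, .b]
  | .d => [.c, .c]

/-- The words `R 0 = c c`, `R (m+1) = tau (R m)`. -/
def R : ℕ → List X
  | 0 => [.c, .c]
  | m + 1 => (R m).flatMap tau

theorem par_append (p q : List X) : par (p ++ q) = xor (par p) (par q) := by
  induction p with
  | nil => simp [par]
  | cons x p ih => simp [par, ih]

theorem S_append (s : Bool) (p q : List X) :
    S s (p ++ q) = S (xor s (par q)) p ++ S s q := by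
  induction p with
  | nil => simp [S]
  | cons x p ih =>
    simp only [List.cons_append, S, ih, List.append_assoc, par_append]
    have : xor s (xor (par p) (par q)) = xor (xor s (par q)) (par p) := by
      cases s <;> cases par p <;> cases par q <;> rfl
    rw [this]

/-- The empty word or the letter `a`. -/
def A : Bool → List Gen
  | true => []
  | false => [.a]

theorem ev_S_tau (r : List X) (s : Bool) (w : List Bool) :
    ev (S s (r.flatMap tau)) w = ev (A (xor s (par (r.flatMap tau))) ++ P r ++ A s) w := by
  induction r with
  | nil => cases s <;> simp [S, par, A, P, act_act]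
  | cons y r ih =>
    have h1 : (y :: r).flatMap tau = tau y ++ r.flatMap tau := by simp
    rw [h1, S_append, ev_append, ih, par_append]
    have h2 : ∀ t : Bool, ev (A t ++ P r ++ A s) w = ev (A t) (ev (P r ++ A s) w) := by
      intro t
      rw [List.append_assoc, ev_append]
    have h3 : ∀ t : Bool, ev (A t ++ P (y :: r) ++ A s) w =
        ev (A t) (act .a (act y.g (ev (P r ++ A s) w))) := by
      intro t
      rw [List.append_assoc, ev_append]
      rfl
    rw [h2, h3]
    generalize ev (P r ++ A s) w = v
    have hcd := act_third v .c .d (by simp)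
    simp only [X.g, third] at hcd
    cases y <;> cases s <;> cases par (r.flatMap tau) <;>
      simp [tau, S, sec, par, A, X.g, act_act, hcd]

theorem count_tau (r : List X) :
    (r.flatMap tau).count .b = r.count .b + 2 * r.count .c ∧
    (r.flatMap tau).count .c = r.count .b + 2 * r.count .d ∧
    (r.flatMap tau).count .d = r.count .b ∧
    r.length = r.count .b + r.count .c + r.count .d ∧
    (r.flatMap tau).length = 3 * r.count .b + 2 * r.count .c + 2 * r.count .d := by
  induction r with
  | nil => simp
  | cons y r ih =>
    obtain ⟨h1, h2, h3, h4, h5⟩ := ih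
    have h0 : (y :: r).flatMap tau = tau y ++ r.flatMap tau := by simp
    rw [h0]
    simp only [List.count_append, List.length_append, h1, h2, h3, h5, List.length_cons, h4]
    cases y <;> simp [tau] <;> omega

theorem par_length (p : List X) : par p = p.length.bodd := by
  induction p with
  | nil => rfl
  | cons x p ih => simp [par, ih]

theorem even_b (m : ℕ) : Even ((R m).count .b) := by
  induction m with
  | zero => simp [R]
  | succ m ih =>
    rw [R, (count_tau (R m)).1]
    exact ih.add (even_two_mul _)

theorem rep_R (m : ℕ) : Rep (m + 2) (P (R m)) := by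
  induction m with
  | zero =>
    intro w hw
    obtain ⟨x, y, rfl⟩ := List.length_eq_two.1 hw
    cases x <;> cases y <;> rfl
  | succ m ih =>
    intro w hw
    cases w with
    | nil => simp at hw
    | cons s v =>
      have hv : v.length = m + 2 := by simpa using hw
      have hne : v ≠ [] := by
        rintro rfl
        simp at hv
      have hpar : par ((R m).flatMap tau) = false := by
        rw [par_length, (count_tau (R m)).2.2.2.2]
        obtain ⟨k, hk⟩ := even_b m
        have : 3 * (R m).count .b + 2 * (R m).count .c + 2 * (R m).count .d =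
            2 * (3 * k + (R m).count .c + (R m).count .d) := by rw [hk]; ring
        rw [this]
        simp
      rw [R, ev_P, ev_S_tau, hpar, flipLast_cons s v hne]
      cases s
      · simp only [Bool.xor_false, A]
        rw [ev_append, ev_append]
        simp only [ev_cons, ev_nil]
        rw [ih _ (by rw [length_act]; exact hv), act_flipLast _ (by rw [length_act]; omega),
          act_act]
      · simp only [Bool.xor_false, A, List.nil_append, List.append_nil]
        rw [ih _ hv]

theorem length_P (p : List X) : (P p).length = 2 * p.length := by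
  induction p with
  | nil => rfl
  | cons x p ih => simp [P, ih]; ring

theorem length_R (m : ℕ) : (P (R m)).length = L (m + 2) := by
  have key : ∀ m : ℕ, 2 * (R m).length = L (m + 2) ∧ 2 * (R (m + 1)).length = L (m + 3) ∧
      2 * (R (m + 2)).length = L (m + 4) := by
    intro m
    induction m with
    | zero => refine ⟨rfl, rfl, rfl⟩
    | succ m ih =>
      obtain ⟨h1, h2, h3⟩ := ih
      refine ⟨h2, h3, ?_⟩
      have h4 : L (m + 1 + 4) = L (m + 4) + 2 * L (m + 3) + 4 * L (m + 2) := rfl
      rw [h4, ← h1, ← h2, ← h3]
      have e1 : R (m + 1) = (R m).flatMap tau := rfl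
      have e2 : R (m + 2) = (R (m + 1)).flatMap tau := rfl
      have e3 : R (m + 1 + 2) = (R (m + 2)).flatMap tau := rfl
      obtain ⟨a1, a2, a3, a4, a5⟩ := count_tau (R m)
      obtain ⟨b1, b2, b3, b4, b5⟩ := count_tau (R (m + 1))
      obtain ⟨c1, c2, c3, c4, c5⟩ := count_tau (R (m + 2))
      rw [← e1] at a1 a2 a3 a5
      rw [← e2] at b1 b2 b3 b5
      rw [← e3] at c1 c2 c3 c5
      omega
  rw [length_P, (key m).1]

theorem exists_rep {n : ℕ} (hn : 2 ≤ n) : ∃ u, Rep n u ∧ u.length = L n := by
  obtain ⟨m, rfl⟩ := Nat.exists_eq_add_of_le' hn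
  exact ⟨_, rep_R m, length_R m⟩

theorem mem_G_of_rep {n : ℕ} {u : List Gen} (hu : Rep n u) : z n ∈ G n := by
  rw [← (rep_iff n u).2 hu]
  refine Subgroup.list_prod_mem _ ?_
  intro x hx
  obtain ⟨y, _, rfl⟩ := List.mem_map.1 hx
  exact Subgroup.subset_closure ⟨y, rfl⟩

theorem len_le_D {n : ℕ} {g : Equiv.Perm (Level n)} (hg : g ∈ G n) : len n g ≤ D n := by
  have hf : Finite (Level n) := (List.finite_length_eq Bool n).to_subtype
  have hs : {k | ∃ g ∈ G n, len n g = k} = len n '' {g | g ∈ G n} := rfl
  refine le_csSup ?_ ⟨g, hg, rfl⟩
  rw [hs]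
  exact ((Set.toFinite _).image _).bddAbove

/-- **Main result.** For every `n ≥ 2`, the automorphism `z_n` that changes the last letter of
every word of length `n` lies in `G_n`, its length is exactly `L n`, and `L n ≤ D_n`. -/
theorem result : ∀ n : ℕ, 2 ≤ n → z n ∈ G n ∧ len n (z n) = L n ∧ L n ≤ D n := by
  intro n hn
  obtain ⟨u, hu, hl⟩ := exists_rep hn
  have h1 := mem_G_of_rep hu
  have h2 : len n (z n) = L n := by
    unfold len
    refine le_antisymm (Nat.sInf_le ⟨u, hl, (rep_iff n u).2 hu⟩) ?_
    refine le_csInf ⟨u.length, u, rfl, (rep_iff n u).2 hu⟩ ?_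
    rintro k ⟨l, rfl, hl⟩
    exact length_ge hn ((rep_iff n l).1 hl)
  exact ⟨h1, h2, h2.symm.le.trans (len_le_D h1)⟩

end Pool.Agent.Results.MP_b99418_al.ExactLength
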